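import Mathlib
import Pool.Agent.Helper56.DivTwo.Final

/-!
Sets of positive integers in which no element divides two others (Erdos; Kleitman, Lebensold):
exact value of the maximum `f(n)` for every `n`, and the limit of `f(n)/n`.
-/

namespace Pool.Agent.Results.MP_69499c_nt.ExactFormula

open Filter Topology

/-- `A` is admissible: no three distinct elements `a, b, c` of `A` satisfy `a ∣ b` and `a ∣ c`. -/
def Admissible (A : Finset ℕ) : Prop :=
  ∀ a ∈ A, ∀ b ∈ A, ∀ c ∈ A, a ≠ b → a ≠ c → b ≠ c → ¬ (a ∣ b ∧ a ∣ c)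

open Classical in
/-- `f n`: the largest cardinality of an admissible subset of `{1, ..., n}`. -/
noncomputable def f (n : ℕ) : ℕ :=
  ((Finset.Icc 1 n).powerset.filter (fun A => Admissible A)).sup Finset.card

/-- `F x = 1 + ⌈a/2⌉ + ⌊log₃ (x / (1 + (a mod 2)))⌋`, where `a = ⌊log₂ x⌋`
(the size of the optimal set inside `{2^i 3^j ≤ x}`). -/
def F (x : ℕ) : ℕ := 1 + (Nat.log 2 x + 1) / 2 + Nat.log 3 (x / (1 + Nat.log 2 x % 2))

/-- The integers in `[1, n]` coprime to `6`. -/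
def rough (n : ℕ) : Finset ℕ := (Finset.Icc 1 n).filter fun r => Nat.Coprime r 6

open Classical in
/-- `E n`: the number of `r ≤ n` coprime to `6` with `10·3^g·r ≤ n < 12·3^g·r` for some `g ≥ 0`,
`⌊log₂ (n/r)⌋` even and `⌊log₂ (n/(5r))⌋` odd. -/
noncomputable def E (n : ℕ) : ℕ := ((rough n).filter fun r =>
  (∃ g, 10 * 3 ^ g * r ≤ n ∧ n < 12 * 3 ^ g * r) ∧ Even (Nat.log 2 (n / r)) ∧
    Odd (Nat.log 2 (n / (5 * r)))).card

/-- `aj j = ⌊log₂ 3^j⌋`. -/
def aj (j : ℕ) : ℕ := Nat.log 2 (3 ^ j)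

/-- `th j = 3^j / 2^(aj j)`, a number in `[1, 2)`. -/
noncomputable def th (j : ℕ) : ℝ := (3 : ℝ) ^ j / 2 ^ aj j

/-- The weights of the series for the limit. -/
noncomputable def w (j : ℕ) : ℝ :=
  if Even (aj j) then
    2 - th j + max 0 (th j / 4 - 1 / 3)
      - max 0 (min (1 / 10) (th j / 16) - max (1 / 12) (th j / 20))
  else th j - 1 / 2 - max (1 / 3) (th j / 4)

/-- The limit of `f(n)/n`. -/
noncomputable def L : ℝ := 1 / 4 + ∑' j : ℕ, w j / 3 ^ (j + 1)

/-- Exact value of `f n` for every `n`; `f(n)/n` converges to the explicit constant `L`, whose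
value is `0.6729656511994893...` -/
theorem result :
    (∀ n : ℕ, f n + E n = ∑ r ∈ rough n, F (n / r)) ∧
      Tendsto (fun n : ℕ => (f n : ℝ) / n) atTop (𝓝 L) ∧
      0.67296565119948934 < L ∧ L < 0.67296565119948935 := by
  refine ⟨fun n => ?_, ?_, ?_⟩
  · exact Pool.Agent.Helper56.DivTwo.exact_formula n
  · exact Pool.Agent.Helper56.DivTwo.tendsto_f
  · exact Pool.Agent.Helper15.DivTwoNum.L_bounds

end Pool.Agent.Results.MP_69499c_nt.ExactFormula
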